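import Mathlib

set_option autoImplicit false

namespace Pool.Agent.H407.GP

open Classical in
theorem abs_pairs {α : Type*} (Z1 Z4 : Finset α) (good : α → Prop) (W : α → α → Prop) (R : α → Prop) (ord : α → ℝ) (M : ℝ)
    (hsub : ∀ w ∈ Z1, w ∈ Z4) (h1 : ∀ z ∈ Z4, 1 ≤ ord z) (hg : ∀ z ∈ Z4, good z → ord z = 1)
    (hM1 : 1 ≤ M) (pc : α → ℝ) (hpc : ∀ w ∈ Z1, pc w = ∑ z ∈ Z4.filter (fun z => W w z), ord z)
    (hM : ∀ w ∈ Z1, pc w ≤ M)
    (hu : ∀ z ∈ Z4, ∀ w ∈ Z1, ∀ w' ∈ Z1, good w → good w' → W w z → W w' z → w = w')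
    (hv : ∀ w ∈ Z1, ∀ z ∈ Z4, ∀ z' ∈ Z4, good z → good z' → W w z → W w z' → z = z')
    (hR1 : ∀ w ∈ Z1, good w → ∀ z ∈ Z4, good z → W w z → R w)
    (hR2 : ∀ w ∈ Z1, R w → ∃ z ∈ Z4, W w z) :
    |∑ w ∈ Z1, ord w * pc w - ∑ w ∈ Z1.filter (fun w => R w), ord w| ≤ (M + 2) * ∑ z ∈ Z4.filter (fun z => ¬ good z), ord z := by
  have h0 : ∀ z ∈ Z4, 0 ≤ ord z := fun z hz => by linarith [h1 z hz]
  obtain ⟨b, hb⟩ : ∃ b : α → ℝ, ∀ w, b w = ∑ z ∈ Z4.filter (fun z => ¬ good z), (if W w z then ord z else 0) := ⟨_, fun _ => rfl⟩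
  have hb0 : ∀ w, 0 ≤ b w := fun w => by
    rw [hb]
    refine Finset.sum_nonneg fun z hz => ?_
    split_ifs
    · exact h0 z (Finset.mem_filter.1 hz).1
    · exact le_rfl
  have hsplit : ∀ w ∈ Z1, pc w = ∑ z ∈ Z4.filter (fun z => good z), (if W w z then ord z else 0) + b w := by
    intro w hw
    rw [hpc w hw, hb, Finset.sum_filter_add_sum_filter_not, Finset.sum_filter]
  have hgood : ∀ w ∈ Z1, good w → |ord w * pc w - (if R w then ord w else 0)| ≤ 2 * b w := by
    intro w hw hgw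
    rw [hg w (hsub w hw) hgw, one_mul, hsplit w hw]
    by_cases hex : ∃ z ∈ Z4, good z ∧ W w z
    · obtain ⟨z, hz, hgz, hWz⟩ := hex
      rw [if_pos (hR1 w hw hgw z hz hgz hWz)]
      rw [Finset.sum_eq_single_of_mem z (Finset.mem_filter.2 ⟨hz, hgz⟩)]
      · rw [if_pos hWz, hg z hz hgz, add_sub_cancel_left, abs_of_nonneg (hb0 w)]
        linarith [hb0 w]
      · intro z' hz' hne
        rw [if_neg]
        intro hW'
        exact hne (hv w hw z' (Finset.mem_filter.1 hz').1 z hz (Finset.mem_filter.1 hz').2 hgz hW' hWz)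
    · have h2 : ∑ z ∈ Z4.filter (fun z => good z), (if W w z then ord z else 0) = 0 := by
        apply Finset.sum_eq_zero
        intro z hz
        rw [if_neg]
        intro hW'
        exact hex ⟨z, (Finset.mem_filter.1 hz).1, (Finset.mem_filter.1 hz).2, hW'⟩
      rw [h2, zero_add]
      by_cases hRw : R w
      · obtain ⟨z, hz, hWz⟩ := hR2 w hw hRw
        have hng : ¬ good z := fun h => hex ⟨z, hz, h, hWz⟩
        have h3 : 1 ≤ b w := by
          rw [hb]
          refine le_trans ?_ (Finset.single_le_sum (f := fun z => if W w z then ord z else 0) (fun x hx => ?_) (Finset.mem_filter.2 ⟨hz, hng⟩))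
          · simp only [if_pos hWz]
            exact h1 z hz
          · split_ifs
            · exact h0 x (Finset.mem_filter.1 hx).1
            · exact le_rfl
        rw [if_pos hRw, abs_of_nonneg (by linarith)]
        linarith
      · rw [if_neg hRw, sub_zero, abs_of_nonneg (hb0 w)]
        linarith [hb0 w]
  have hpc0 : ∀ w ∈ Z1, 0 ≤ pc w := by
    intro w hw
    rw [hpc w hw]
    exact Finset.sum_nonneg fun z hz => h0 z (Finset.mem_filter.1 hz).1
  have hbad : ∀ w ∈ Z1, |ord w * pc w - (if R w then ord w else 0)| ≤ M * ord w := by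
    intro w hw
    have e0 := h0 w (hsub w hw)
    have e1 := hpc0 w hw
    have e2 := hM w hw
    have e3 : ord w * pc w ≤ M * ord w := by nlinarith only [mul_le_mul_of_nonneg_left e2 e0]
    have e4 : 0 ≤ ord w * pc w := mul_nonneg e0 e1
    have e5 : ord w ≤ M * ord w := by nlinarith only [mul_le_mul_of_nonneg_right hM1 e0]
    rw [abs_le]
    constructor
    · split_ifs <;> linarith
    · split_ifs <;> linarith
  have hsum : ∑ w ∈ Z1, ord w * pc w - ∑ w ∈ Z1.filter (fun w => R w), ord w = ∑ w ∈ Z1, (ord w * pc w - (if R w then ord w else 0)) := by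
    rw [Finset.sum_sub_distrib, Finset.sum_filter]
  rw [hsum]
  have hA : ∑ w ∈ Z1.filter (fun w => good w), b w ≤ ∑ z ∈ Z4.filter (fun z => ¬ good z), ord z := by
    simp only [hb]
    rw [Finset.sum_comm]
    apply Finset.sum_le_sum
    intro z hz
    rw [Finset.mem_filter] at hz
    by_cases hex : ∃ w ∈ Z1.filter (fun w => good w), W w z
    · obtain ⟨w, hw, hWw⟩ := hex
      rw [Finset.sum_eq_single_of_mem w hw]
      · rw [if_pos hWw]
      · intro w' hw' hne
        rw [if_neg]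
        intro hW'
        rw [Finset.mem_filter] at hw hw'
        exact hne (hu z hz.1 w' hw'.1 w hw.1 hw'.2 hw.2 hW' hWw)
    · rw [Finset.sum_eq_zero]
      · exact h0 z hz.1
      · intro w hw
        rw [if_neg]
        intro h
        exact hex ⟨w, hw, h⟩
  have hB : ∑ w ∈ Z1.filter (fun w => ¬ good w), ord w ≤ ∑ z ∈ Z4.filter (fun z => ¬ good z), ord z := by
    apply Finset.sum_le_sum_of_subset_of_nonneg
    · intro w hw
      rw [Finset.mem_filter] at hw ⊢
      exact ⟨hsub w hw.1, hw.2⟩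
    · intro z hz _
      exact h0 z (Finset.mem_filter.1 hz).1
  calc |∑ w ∈ Z1, (ord w * pc w - (if R w then ord w else 0))| ≤ ∑ w ∈ Z1, |ord w * pc w - (if R w then ord w else 0)| :=
        Finset.abs_sum_le_sum_abs _ _
    _ = ∑ w ∈ Z1.filter (fun w => good w), |ord w * pc w - (if R w then ord w else 0)| +
        ∑ w ∈ Z1.filter (fun w => ¬ good w), |ord w * pc w - (if R w then ord w else 0)| :=
        (Finset.sum_filter_add_sum_filter_not Z1 (fun w => good w) _).symm
    _ ≤ ∑ w ∈ Z1.filter (fun w => good w), 2 * b w + ∑ w ∈ Z1.filter (fun w => ¬ good w), M * ord w := by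
        apply add_le_add
        · exact Finset.sum_le_sum fun w hw => hgood w (Finset.mem_filter.1 hw).1 (Finset.mem_filter.1 hw).2
        · exact Finset.sum_le_sum fun w hw => hbad w (Finset.mem_filter.1 hw).1
    _ ≤ (M + 2) * ∑ z ∈ Z4.filter (fun z => ¬ good z), ord z := by
        rw [← Finset.mul_sum, ← Finset.mul_sum]
        have := mul_le_mul_of_nonneg_left hB (show 0 ≤ M by linarith)
        linarith

end Pool.Agent.H407.GP
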