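import Pool.Agent.H487.GP.Stm3
import Pool.Agent.H407.GP.Comb

set_option autoImplicit false

/-!
Project GP: the number of all pairs.
-/

open Finset Complex Filter Topology Metric Set MeasureTheory

namespace Pool.Agent.H407.GP

open Pool.Agent.Helper242.KK (FT Ph)
open Pool.Agent.H477.Jen
open Pool.Agent.H477.E
open Pool.Agent.H487.GA
open Pool.Agent.H487.ED (Ev)
open Pool.Agent.H487.GP

/-- the number of zeros in a short interval -/
theorem short (hU : S_UNITU) : ∃ C T0 : ℝ, 0 < C ∧ 10 ≤ T0 ∧ ∀ T : ℝ, T0 ≤ T → ∀ k : ℕ, (k : ℝ) ≤ Real.log T / 2 →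
    ∀ t : ℝ, T ≤ t → t ≤ 5 * T → ∀ S : Finset ℂ, (∀ w ∈ S, iteratedDeriv k (FT Ph) w = 0 ∧ t ≤ w.re ∧ w.re ≤ t + 1) →
    ∑ w ∈ S, ordk k w ≤ C * Real.log T := by
  obtain ⟨C, T0, hC, hu⟩ := hU
  refine ⟨2 * C, max T0 10, by positivity, le_max_right _ _, ?_⟩
  intro T hT k hk t ht1 ht2 S hS
  rw [max_le_iff] at hT
  have hT0 : 0 < T := by linarith
  have hl5 : Real.log 5 ≤ Real.log T := Real.log_le_log (by norm_num) (by linarith)
  have hlt : Real.log t ≤ 2 * Real.log T := by
    have h1 : Real.log t ≤ Real.log (5 * T) := Real.log_le_log (by linarith) ht2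
    rw [Real.log_mul (by norm_num) hT0.ne'] at h1
    linarith
  have hlt2 : Real.log T ≤ Real.log t := Real.log_le_log hT0 ht1
  have hlT : Real.log T ≤ T - 1 := Real.log_le_sub_one_of_pos hT0
  have h1 := hu t (by linarith) k (by linarith) S ?_
  · refine (show ∑ w ∈ S, ordk k w ≤ C * Real.log t from h1).trans ?_
    have := mul_le_mul_of_nonneg_left hlt hC.le
    linarith
  · intro w hw
    obtain ⟨h2, h3, h4⟩ := hS w hw
    refine ⟨h2, ?_⟩
    have h5 := strip_im_one k w h2 (by linarith)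
    refine (Complex.norm_le_abs_re_add_abs_im _).trans ?_
    have h6 : |(w - (t:ℂ)).re| ≤ 1 := by
      rw [sub_re, ofReal_re, abs_le]
      constructor <;> linarith
    have h7 : |(w - (t:ℂ)).im| ≤ 1 := by
      rw [sub_im, ofReal_im, sub_zero]
      exact h5
    linarith

/-- the number of zeros up to `4T` -/
theorem upN {C T0 : ℝ} (h10 : 10 ≤ T0) (h : ∀ T : ℝ, T0 ≤ T → ∀ k : ℕ, (k : ℝ) ≤ Real.log T / 2 →
    ∀ t : ℝ, T ≤ t → t ≤ 5 * T → ∀ S : Finset ℂ, (∀ w ∈ S, iteratedDeriv k (FT Ph) w = 0 ∧ t ≤ w.re ∧ w.re ≤ t + 1) →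
    ∑ w ∈ S, ordk k w ≤ C * Real.log T) (hC : 0 < C) {T : ℝ} (hT : T0 ≤ T) {k : ℕ} (hk : (k : ℝ) ≤ Real.log T / 2) :
    ∑ w ∈ ZD k (fun _ => True) (2 * T), ordk k w ≤ 3 * T * (C * Real.log T) := by
  classical
  have hT0 : 0 < T := by linarith
  have hL : 0 < Real.log T := Real.log_pos (by linarith)
  have key : ∀ n : ℕ, (n : ℝ) ≤ 3 * T → ∀ S : Finset ℂ,
      (∀ w ∈ S, iteratedDeriv k (FT Ph) w = 0 ∧ 2 * T < w.re ∧ w.re ≤ 2 * T + n) →
      ∑ w ∈ S, ordk k w ≤ n * (C * Real.log T) := by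
    intro n
    induction n with
    | zero =>
      intro _ S hS
      rw [Finset.sum_eq_zero]
      · simp
      · intro w hw
        obtain ⟨_, h1, h2⟩ := hS w hw
        simp only [Nat.cast_zero, add_zero] at h2
        linarith
    | succ n ih =>
      intro hn S hS
      push_cast at hn
      rw [← Finset.sum_filter_add_sum_filter_not S (fun w => w.re ≤ 2 * T + n)]
      have h1 := ih (by linarith) (S.filter (fun w => w.re ≤ 2 * T + n)) fun w hw => by
        rw [Finset.mem_filter] at hw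
        obtain ⟨h1, h2, _⟩ := hS w hw.1
        exact ⟨h1, h2, hw.2⟩
      have hn0 : (0:ℝ) ≤ n := Nat.cast_nonneg n
      have h2 := h T hT k hk (2 * T + n) (by linarith) (by linarith) (S.filter (fun w => ¬ w.re ≤ 2 * T + n)) fun w hw => by
        rw [Finset.mem_filter] at hw
        obtain ⟨h1, h2, h3⟩ := hS w hw.1
        push_cast at h3
        exact ⟨h1, (not_le.1 hw.2).le, by linarith⟩
      push_cast
      linarith
  have h1 := key ⌈2 * T⌉₊ (by have := Nat.ceil_lt_add_one (show 0 ≤ 2 * T by linarith); linarith)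
    (ZD k (fun _ => True) (2 * T)) fun w hw => by
      obtain ⟨h1, h2, h3, _⟩ := (mem_ZD (by linarith)).1 hw
      refine ⟨h1, h2, ?_⟩
      have := Nat.le_ceil (2 * T)
      linarith
  refine h1.trans (mul_le_mul_of_nonneg_right ?_ (by positivity))
  have := Nat.ceil_lt_add_one (show 0 ≤ 2 * T by linarith)
  linarith

/-- the analytic facts about one window -/
theorem wi_iff {y h : ℝ} {w z : ℂ} (_hl : 0 < Real.log w.re) : Wi y h w z ↔
    2 * Real.pi * y ≤ (z.re - w.re) * Real.log w.re ∧ (z.re - w.re) * Real.log w.re ≤ 2 * Real.pi * (y + h) := by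
  have hpi : 0 < 2 * Real.pi := by positivity
  unfold Wi
  rw [le_div_iff₀ hpi, div_le_iff₀ hpi]
  constructor
  · rintro ⟨h1, h2⟩
    exact ⟨by linarith, by linarith⟩
  · rintro ⟨h1, h2⟩
    exact ⟨by linarith, by linarith⟩

/-- the next zero -/
theorem next_mul {k : ℕ} {w z : ℂ} {e : ℝ} (h : Ev e k w) (hw : 1 < w.re) (hz : iteratedDeriv k (FT Ph) w = 0)
    (hz' : iteratedDeriv k (FT Ph) z = 0) (hwz : w.re < z.re) : (1 - e) * (2 * Real.pi) ≤ (z.re - w.re) * Real.log w.re := by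
  obtain ⟨b, _, _, h3, h4, _⟩ := Ev_next h hw hz
  have hl : 0 < Real.log w.re := Real.log_pos hw
  have h5 := h3 z hz' hwz
  have h6 : (1 - e) * (2 * Real.pi / Real.log w.re) ≤ z.re - w.re := by linarith
  rw [mul_div_assoc', div_le_iff₀ hl] at h6
  exact h6

/-- all the facts for one `T` -/
theorem one {C q A D : ℝ} {T : ℝ} {k : ℕ} {y h : ℝ} (hC : 0 < C) (h10 : 10 ≤ T)
    (hsh : ∀ t : ℝ, T ≤ t → t ≤ 5 * T → ∀ S : Finset ℂ, (∀ w ∈ S, iteratedDeriv k (FT Ph) w = 0 ∧ t ≤ w.re ∧ w.re ≤ t + 1) →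
      ∑ w ∈ S, ordk k w ≤ C * Real.log T) (hL : 4 ≤ Real.log T)
    (hD : D = 2 * Real.pi * (A + 1)) (hDT : D ^ 2 ≤ T) (hA : 0 ≤ A) (hy1 : 1 ≤ y) (hyA : y ≤ A * Real.log T) (hh0 : 0 ≤ h) (hh : h ≤ 1 / 2)
    (hq1 : ∑ w ∈ ZD k (fun w => ¬ Ev (1 / 100) k w) T, ordk k w + ∑ w ∈ ZD k (fun w => ¬ Ev (1 / 100) k w) (2 * T), ordk k w ≤ q) :
    |∑ w ∈ ZD k (fun _ => True) T, ordk k w * pc k T y h w - ∑ w ∈ ZD k (PRR y h k) T, ordk k w| ≤ (C * Real.log T + 3) * q := by
  classical
  have hT0 : 0 < T := by linarith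
  have hpi := Real.pi_pos
  have hpi3 := Real.pi_gt_three
  have hpi4 := Real.pi_lt_d2
  have hD6 : 6 ≤ D := by
    rw [hD]
    nlinarith only [hpi3, hA, mul_nonneg hpi.le hA]
  have hDT' : D ≤ T := by nlinarith only [hD6, hDT]
  obtain ⟨Z4, hZ4⟩ : ∃ Z4 : Finset ℂ, Z4 = cfil (fun z => T < z.re) (ZA_fin k (4 * T)).toFinset := ⟨_, rfl⟩
  have mem4 : ∀ z : ℂ, z ∈ Z4 ↔ iteratedDeriv k (FT Ph) z = 0 ∧ T < z.re ∧ z.re ≤ 4 * T := by
    intro z
    rw [hZ4, mem_cfil, Set.Finite.mem_toFinset]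
    constructor
    · rintro ⟨⟨h1, h2, h3⟩, h4⟩
      exact ⟨h1, h4, h3⟩
    · rintro ⟨h1, h2, h3⟩
      exact ⟨⟨h1, by linarith, h3⟩, h2⟩
  have mem1 : ∀ w : ℂ, w ∈ ZD k (fun _ => True) T ↔ iteratedDeriv k (FT Ph) w = 0 ∧ T < w.re ∧ w.re ≤ 2 * T := by
    intro w
    rw [mem_ZD hT0.le]
    constructor
    · rintro ⟨h1, h2, h3, _⟩
      exact ⟨h1, h2, h3⟩
    · rintro ⟨h1, h2, h3⟩
      exact ⟨h1, h2, h3, trivial⟩
  have hlog : ∀ x : ℝ, T < x → Real.log T ≤ Real.log x := fun x hx => Real.log_le_log hT0 hx.le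
  -- the distance of a zero in the window
  have hdist : ∀ x z : ℝ, T < x → (z - x) * Real.log x ≤ 2 * Real.pi * (y + h) → z - x ≤ D := by
    intro x z hx hz
    have hl := hlog x hx
    by_contra hcon
    rw [not_le] at hcon
    have h1 : D * Real.log T < (z - x) * Real.log x := by
      have h2 : D * Real.log T ≤ D * Real.log x := mul_le_mul_of_nonneg_left hl (by linarith)
      have h3 : D * Real.log x < (z - x) * Real.log x := mul_lt_mul_of_pos_right hcon (by linarith)
      linarith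
    have h2 : y + h ≤ (A + 1) * Real.log T := by linarith
    have h3 := mul_le_mul_of_nonneg_left h2 (show 0 ≤ 2 * Real.pi by positivity)
    rw [hD] at h1
    linarith
  have hpos : ∀ x z : ℝ, T < x → 2 * Real.pi * y ≤ (z - x) * Real.log x → x < z := by
    intro x z hx hz
    have hl := hlog x hx
    by_contra hcon
    rw [not_lt] at hcon
    have h1 : (z - x) * Real.log x ≤ 0 := mul_nonpos_of_nonpos_of_nonneg (by linarith) (by linarith)
    have h2 : 0 < 2 * Real.pi * y := by positivity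
    linarith
  have key := abs_pairs (ZD k (fun _ => True) T) Z4 (fun z => Ev (1 / 100) k z) (fun w z => Wi y h w z) (fun w => PRR y h k w)
    (ordk k) (C * Real.log T + 1) ?_ ?_ ?_ ?_ (fun w => pc k T y h w) ?_ ?_ ?_ ?_ ?_ ?_
  · have e1 : ((ZD k (fun _ => True) T).filter fun w => PRR y h k w) = ZD k (PRR y h k) T := by
      ext w
      rw [Finset.mem_filter, mem1, mem_ZD hT0.le]
      tauto
    have e2 : ∑ z ∈ Z4.filter (fun z => ¬ Ev (1 / 100) k z), ordk k z ≤ q := by
      refine le_trans ?_ hq1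
      rw [← Finset.sum_union_inter]
      have h1 : 0 ≤ ∑ w ∈ ZD k (fun w => ¬ Ev (1 / 100) k w) T ∩ ZD k (fun w => ¬ Ev (1 / 100) k w) (2 * T), ordk k w :=
        Finset.sum_nonneg fun w _ => ordk_nonneg k w
      have h2 : ∑ z ∈ Z4.filter (fun z => ¬ Ev (1 / 100) k z), ordk k z ≤
          ∑ w ∈ ZD k (fun w => ¬ Ev (1 / 100) k w) T ∪ ZD k (fun w => ¬ Ev (1 / 100) k w) (2 * T), ordk k w := by
        apply Finset.sum_le_sum_of_subset_of_nonneg
        · intro z hz
          rw [Finset.mem_filter, mem4] at hz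
          rw [Finset.mem_union, mem_ZD hT0.le, mem_ZD (by linarith)]
          obtain ⟨⟨h1, h2, h3⟩, h4⟩ := hz
          rcases le_or_gt z.re (2 * T) with h5 | h5
          · exact Or.inl ⟨h1, h2, h5, h4⟩
          · exact Or.inr ⟨h1, h5, by linarith, h4⟩
        · exact fun w _ _ => ordk_nonneg k w
      linarith
    have e3 : 0 ≤ C * Real.log T + 1 + 2 := by positivity
    have e4 := mul_le_mul_of_nonneg_left e2 e3
    rw [← e1]
    refine key.trans (e4.trans (le_of_eq ?_))
    ring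
  · intro w hw
    rw [mem1] at hw
    rw [mem4]
    exact ⟨hw.1, hw.2.1, by linarith [hw.2.2]⟩
  · intro z hz
    exact ordk_one k ((mem4 z).1 hz).1
  · intro z hz hg
    exact ordk_simple ((mem4 z).1 hz).1 hg.2.1
  · have : 0 ≤ C * Real.log T := by positivity
    linarith
  · intro w hw
    rw [mem1] at hw
    unfold pc
    apply Finset.sum_congr _ fun _ _ => rfl
    ext z
    rw [mem_cfil, Finset.mem_filter, mem4, Set.Finite.mem_toFinset]
    have hlw : 0 < Real.log w.re := by linarith [hlog w.re hw.2.1]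
    constructor
    · rintro ⟨⟨h1, h2, h3⟩, h4⟩
      refine ⟨⟨h1, ?_, h3⟩, h4⟩
      have := hpos w.re z.re hw.2.1 ((wi_iff hlw).1 h4).1
      linarith [hw.2.1]
    · rintro ⟨⟨h1, h2, h3⟩, h4⟩
      exact ⟨⟨h1, by linarith, h3⟩, h4⟩
  · intro w hw
    rw [mem1] at hw
    have hlw : 0 < Real.log w.re := by linarith [hlog w.re hw.2.1]
    have h1 := hsh (w.re + 2 * Real.pi * y / Real.log w.re) ?_ ?_ (cfil (Wi y h w) (ZA_fin k (4 * T)).toFinset) ?_
    · change pc k T y h w ≤ _
      unfold pc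
      linarith
    · have : 0 ≤ 2 * Real.pi * y / Real.log w.re := by positivity
      linarith [hw.2.1]
    · have h2 : 2 * Real.pi * y / Real.log w.re ≤ D := by
        have h3 := hdist w.re (w.re + 2 * Real.pi * y / Real.log w.re) hw.2.1 (by
          rw [add_sub_cancel_left, div_mul_cancel₀ _ hlw.ne']
          have : 0 ≤ 2 * Real.pi * h := by positivity
          linarith)
        linarith
      linarith [hw.2.2]
    · intro z hz
      rw [mem_cfil, Set.Finite.mem_toFinset] at hz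
      obtain ⟨⟨h2, h3, h4⟩, h5⟩ := hz
      rw [wi_iff hlw] at h5
      refine ⟨h2, ?_, ?_⟩
      · have h6 : 2 * Real.pi * y / Real.log w.re ≤ z.re - w.re := by
          rw [div_le_iff₀ hlw]
          exact h5.1
        linarith
      · have h6 : z.re - w.re ≤ 2 * Real.pi * (y + h) / Real.log w.re := by
          rw [le_div_iff₀ hlw]
          exact h5.2
        have h7 : 2 * Real.pi * (y + h) / Real.log w.re ≤ 2 * Real.pi * y / Real.log w.re + 1 := by
          rw [mul_add, add_div]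
          have h8 : 2 * Real.pi * h / Real.log w.re ≤ 1 := by
            rw [div_le_one hlw]
            have h9 : 2 * Real.pi * h ≤ 2 * Real.pi * (1 / 2) := mul_le_mul_of_nonneg_left hh (by positivity)
            linarith [hlog w.re hw.2.1]
          linarith
        linarith
  · intro z hz w hw w' hw' hgw hgw' hW hW'
    rw [mem1] at hw hw'
    have main : ∀ w w' : ℂ, (iteratedDeriv k (FT Ph) w = 0 ∧ T < w.re ∧ w.re ≤ 2 * T) → (iteratedDeriv k (FT Ph) w' = 0 ∧ T < w'.re ∧ w'.re ≤ 2 * T) →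
        Ev (1 / 100) k w → Wi y h w z → Wi y h w' z → ¬ w.re < w'.re := by
      intro w w' hw hw' hgw hW hW' hlt
      have hlw := hlog w.re hw.2.1
      have hlw' := hlog w'.re hw'.2.1
      rw [wi_iff (by linarith)] at hW hW'
      have h1 := next_mul hgw (by linarith [hw.2.1]) hw.1 hw'.1 hlt
      have h2 := hdist w.re z.re hw.2.1 hW.2
      have h3 := hpos w'.re z.re hw'.2.1 hW'.1
      have h4 : Real.log w'.re - Real.log w.re ≤ D / T := by
        have hw0 : 0 < w.re := by linarith [hw.2.1]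
        have h5 : Real.log w'.re - Real.log w.re ≤ w'.re / w.re - 1 := by
          rw [← Real.log_div (by linarith) hw0.ne']
          exact Real.log_le_sub_one_of_pos (div_pos (by linarith) hw0)
        have h6 : w'.re / w.re - 1 = (w'.re - w.re) / w.re := by
          field_simp
        have h7 : (w'.re - w.re) / w.re ≤ D / T := by
          apply div_le_div₀ (by linarith) (by linarith) hT0 hw.2.1.le
        linarith
      have h5 : (z.re - w'.re) * (Real.log w'.re - Real.log w.re) ≤ 1 := by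
        have h6 : (z.re - w'.re) * (Real.log w'.re - Real.log w.re) ≤ D * (D / T) := by
          have h7 : Real.log w.re ≤ Real.log w'.re := Real.log_le_log (by linarith [hw.2.1]) hlt.le
          exact mul_le_mul (by linarith) h4 (by linarith) (by linarith)
        have h7 : D * (D / T) ≤ 1 := by
          rw [mul_div_assoc', div_le_one hT0]
          linarith
        linarith
      have h8 : (z.re - w'.re) * Real.log w'.re - 1 ≤ (z.re - w'.re) * Real.log w.re := by linarith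
      have h9 : (z.re - w'.re) * Real.log w.re + (w'.re - w.re) * Real.log w.re = (z.re - w.re) * Real.log w.re := by ring
      have h10 : 2 * Real.pi * h ≤ 2 * Real.pi * (1 / 2) := mul_le_mul_of_nonneg_left hh (by positivity)
      linarith [hW.2, hW'.1]
    have hre : w.re = w'.re := by
      rcases lt_trichotomy w.re w'.re with h1 | h1 | h1
      · exact absurd h1 (main w w' hw hw' hgw hW hW')
      · exact h1
      · exact absurd h1 (main w' w hw' hw hgw' hW' hW)
    apply Complex.ext hre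
    rw [hgw.1, hgw'.1]
  · intro w hw z hz z' hz' hgz hgz' hW hW'
    rw [mem1] at hw
    rw [mem4] at hz hz'
    have hlw := hlog w.re hw.2.1
    rw [wi_iff (by linarith)] at hW hW'
    have main : ∀ z z' : ℂ, (iteratedDeriv k (FT Ph) z = 0 ∧ T < z.re ∧ z.re ≤ 4 * T) → (iteratedDeriv k (FT Ph) z' = 0 ∧ T < z'.re ∧ z'.re ≤ 4 * T) →
        Ev (1 / 100) k z → (2 * Real.pi * y ≤ (z.re - w.re) * Real.log w.re) → ((z'.re - w.re) * Real.log w.re ≤ 2 * Real.pi * (y + h)) →
        ¬ z.re < z'.re := by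
      intro z z' hz hz' hgz hW hW' hlt
      have h1 := next_mul hgz (by linarith [hz.2.1]) hz.1 hz'.1 hlt
      have h2 : Real.log z.re ≤ 3 / 2 * Real.log w.re := by
        have h3 : Real.log z.re ≤ Real.log (4 * T) := Real.log_le_log (by linarith [hz.2.1]) hz.2.2
        rw [Real.log_mul (by norm_num) hT0.ne'] at h3
        have h4 : Real.log 4 ≤ 2 := by
          have : Real.log 4 = 2 * Real.log 2 := by
            rw [show (4:ℝ) = 2 ^ 2 by norm_num, Real.log_pow]
            push_cast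
            ring
          have := Real.log_two_lt_d9
          linarith
        linarith
      have h3 : (z'.re - z.re) * Real.log z.re ≤ (z'.re - z.re) * (3 / 2 * Real.log w.re) := mul_le_mul_of_nonneg_left h2 (by linarith)
      have h4 : (z'.re - z.re) * Real.log w.re + (z.re - w.re) * Real.log w.re = (z'.re - w.re) * Real.log w.re := by ring
      have h10 : 2 * Real.pi * h ≤ 2 * Real.pi * (1 / 2) := mul_le_mul_of_nonneg_left hh (by positivity)
      linarith
    have hre : z.re = z'.re := by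
      rcases lt_trichotomy z.re z'.re with h1 | h1 | h1
      · exact absurd h1 (main z z' hz hz' hgz hW.1 hW'.2)
      · exact h1
      · exact absurd h1 (main z' z hz' hz hgz' hW'.1 hW.2)
    apply Complex.ext hre
    rw [hgz.1, hgz'.1]
  · intro w hw hgw z hz hgz hW
    refine ⟨hgw.1, z.re, ?_, ?_⟩
    · rw [real_eq hgz.1]
      exact ((mem4 z).1 hz).1
    · rw [real_eq hgz.1]
      exact hW
  · rintro w hw ⟨hw0, g, hg, hW⟩
    rw [mem1] at hw
    have hlw := hlog w.re hw.2.1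
    refine ⟨(g : ℂ), ?_, hW⟩
    rw [mem4]
    rw [wi_iff (by linarith), ofReal_re] at hW
    have h1 := hdist w.re g hw.2.1 hW.2
    have h2 := hpos w.re g hw.2.1 hW.1
    rw [ofReal_re]
    exact ⟨hg, by linarith [hw.2.1], by linarith [hw.2.2]⟩

theorem pairs_proof (hDYA : Pool.Agent.H487.ED.S_DYA) (hU : Pool.Agent.H477.E.S_UNITU) (hLOW : S_LOWN) : S_PAIRS := by
  intro s1 ε hs1 hε
  obtain ⟨CU, TU, hCU, hTU, hsh⟩ := short hU
  obtain ⟨k0, δL, TL, hδL, hlow⟩ := hLOW
  obtain ⟨c, C0, T1, hc, hdya⟩ := hDYA (1 / 100) (by norm_num)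
  obtain ⟨D, hD⟩ : ∃ D : ℝ, D = 2 * Real.pi * (s1 + 1) := ⟨_, rfl⟩
  have hev : ∀ᶠ T : ℝ in atTop, (max TU (max T1 (max TL (D ^ 2))) ≤ T) ∧
      (max 4 ((CU + 3) * (|C0| * (1 + 30 * CU)) / ε) ≤ Real.log T) ∧ ((k0 : ℝ) ≤ 2 / c * Real.log (Real.log T)) := by
    refine (eventually_ge_atTop _).and ((Real.tendsto_log_atTop.eventually_ge_atTop _).and ?_)
    have h1 : Tendsto (fun T : ℝ => 2 / c * Real.log (Real.log T)) atTop atTop :=
      Tendsto.const_mul_atTop (by positivity) (Real.tendsto_log_atTop.comp Real.tendsto_log_atTop)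
    exact h1.eventually_ge_atTop _
  obtain ⟨T0, hT0⟩ := eventually_atTop.1 hev
  refine ⟨2 / c, min δL (1 / 400), T0, by positivity, ?_⟩
  intro T hT k hk1 hk2 y h hy1 hy2 hh0 hh
  obtain ⟨h1, h2, h3⟩ := hT0 T hT
  simp only [max_le_iff] at h1 h2
  obtain ⟨a1, a2, a3, a4⟩ := h1
  obtain ⟨b1, b2⟩ := h2
  have hTp : 0 < T := by linarith
  obtain ⟨L, hL⟩ : ∃ L : ℝ, L = Real.log T := ⟨_, rfl⟩
  have hk400 : 400 * (k : ℝ) ≤ Real.log T := by
    have := mul_le_mul_of_nonneg_right (min_le_right δL (1 / 400)) (show 0 ≤ Real.log T by linarith)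
    linarith
  have hkL : (k : ℝ) ≤ δL * Real.log T := by
    have := mul_le_mul_of_nonneg_right (min_le_left δL (1 / 400)) (show 0 ≤ Real.log T by linarith)
    linarith
  have hk0 : k0 ≤ k := by exact_mod_cast h3.trans hk1
  have hN := hlow T a3 k hk0 hkL
  have hN2 := upN hTU hsh hCU a1 (k := k) (by linarith)
  have hkn : (0:ℝ) ≤ k := Nat.cast_nonneg k
  have hd1 := hdya T a2 k hk400
  have hd2 := hdya (2 * T) (by linarith) k (hk400.trans (Real.log_le_log hTp (by linarith)))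
  rw [cnt_ZD k _ hTp.le, cnt_ZD k _ hTp.le] at hd1
  rw [cnt_ZD k _ (by linarith), cnt_ZD k _ (by linarith)] at hd2
  obtain ⟨N, hNd⟩ : ∃ N : ℝ, N = ∑ w ∈ ZD k (fun _ => True) T, ordk k w := ⟨_, rfl⟩
  obtain ⟨N2, hN2d⟩ : ∃ N2 : ℝ, N2 = ∑ w ∈ ZD k (fun _ => True) (2 * T), ordk k w := ⟨_, rfl⟩
  rw [← hNd] at hd1 hN ⊢
  rw [← hN2d] at hd2 hN2
  have hN20 : 0 ≤ N2 := by rw [hN2d]; exact Finset.sum_nonneg fun w _ => ordk_nonneg k w
  have hN0 : 0 ≤ N := by rw [hNd]; exact Finset.sum_nonneg fun w _ => ordk_nonneg k w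
  have hN3 : N2 ≤ 30 * CU * N := by
    have h4 := mul_le_mul_of_nonneg_left hN hCU.le
    linarith
  obtain ⟨E, hE⟩ : ∃ E : ℝ, E = Real.exp (-c * k) := ⟨_, rfl⟩
  have hE0 : 0 < E := by rw [hE]; exact Real.exp_pos _
  have hEL : E * (L * L) ≤ 1 := by
    have hLp : 0 < L := by linarith
    have h4 : E ≤ Real.exp (-(2 * Real.log L)) := by
      rw [hE]
      apply Real.exp_le_exp.2
      have h5 := mul_le_mul_of_nonneg_left hk1 hc.le
      rw [← hL, ← mul_assoc, mul_div_cancel₀ _ hc.ne'] at h5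
      linarith
    have h5 : Real.exp (-(2 * Real.log L)) * (L * L) = 1 := by
      rw [Real.exp_neg, two_mul, Real.exp_add, Real.exp_log hLp]
      field_simp
    calc E * (L * L) ≤ Real.exp (-(2 * Real.log L)) * (L * L) := mul_le_mul_of_nonneg_right h4 (by positivity)
      _ = 1 := h5
  rw [← hE] at hd1 hd2
  have hq : ∑ w ∈ ZD k (fun w => ¬ Ev (1 / 100) k w) T, ordk k w + ∑ w ∈ ZD k (fun w => ¬ Ev (1 / 100) k w) (2 * T), ordk k w ≤
      |C0| * E * (N + N2) := by
    have h4 : C0 * E ≤ |C0| * E := mul_le_mul_of_nonneg_right (le_abs_self C0) hE0.le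
    have h5 := mul_le_mul_of_nonneg_right h4 hN0
    have h6 := mul_le_mul_of_nonneg_right h4 hN20
    linarith
  have key := one (C := CU) (T := T) (k := k) (y := y) (h := h) (A := s1) (D := D) hCU (by linarith)
    (fun t ht1 ht2 S hS => hsh T a1 k (by linarith) t ht1 ht2 S hS) b1 hD a4 hs1.le hy1
    (hy2.trans (mul_le_mul_of_nonneg_left (by linarith) hs1.le)) hh0 hh hq
  refine key.trans ?_
  rw [← hL] at b1 b2 ⊢
  have hL0 : 0 < L := by linarith
  rw [div_le_iff₀ hε] at b2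
  have h4 : N + N2 ≤ (1 + 30 * CU) * N := by linarith
  have h5 : CU * L + 3 ≤ (CU + 3) * L := by linarith
  have h6 : |C0| * E * (N + N2) ≤ |C0| * E * ((1 + 30 * CU) * N) := mul_le_mul_of_nonneg_left h4 (by positivity)
  have h7 : (CU * L + 3) * (|C0| * E * (N + N2)) ≤ ((CU + 3) * L) * (|C0| * E * ((1 + 30 * CU) * N)) :=
    mul_le_mul h5 h6 (by positivity) (by positivity)
  refine h7.trans ?_
  have h8 : ((CU + 3) * L) * (|C0| * E * ((1 + 30 * CU) * N)) = ((CU + 3) * (|C0| * (1 + 30 * CU))) * (E * L * N) := by ring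
  rw [h8]
  have h9 : ((CU + 3) * (|C0| * (1 + 30 * CU))) * (E * L * N) ≤ (L * ε) * (E * L * N) := mul_le_mul_of_nonneg_right b2 (by positivity)
  refine h9.trans ?_
  have h10 : (L * ε) * (E * L * N) = (E * (L * L)) * (ε * N) := by ring
  rw [h10]
  have h11 := mul_le_mul_of_nonneg_right hEL (show 0 ≤ ε * N by positivity)
  linarith

end Pool.Agent.H407.GP
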